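import Mathlib
import Pool.Agent.R325.ParamPoly

/-!
# MP_705328_nt: good factors of the parameter polynomials `P_{n,α}(λ) - β` of `z^d + λ`

`P d α n` (imported) is `P_{n,α}(λ) = f_λ^n(α)`: `P d α 0 = α` and
`P d α (n + 1) = (P d α n)^d + λ`.
-/

set_option autoImplicit false

namespace Pool.Agent.Results.MP_705328_nt.CommonPrime

open Polynomial Pool.Agent.R325.ParamPoly

/-- The conclusion of Q1 for given `d, α, β, M` over the finite field `F`. -/
def HasGoodFactor {F : Type} [Field F] [Fintype F] (d : ℕ) (α β : F) (M : ℕ) : Prop :=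
  ∃ n : ℕ, 1 ≤ n ∧ ∃ g : F[X], Irreducible g ∧ g ∣ P d α n - C β ∧ M < g.natDegree ∧
    Nat.Coprime d (Fintype.card F ^ g.natDegree - 1)

theorem equal_case {F : Type} [Field F] [Fintype F] (p : ℕ) [Fact p.Prime] [CharP F p] (d : ℕ)
    (hd : 2 ≤ d) (hgcd : Nat.Coprime d (Fintype.card F - 1)) (α : F) (M : ℕ) :
    HasGoodFactor d α α M := by
  classical
  set q := Fintype.card F with hq
  have hq2 : 2 ≤ q := Fintype.one_lt_card
  set k := M * Nat.totient d + 1 with hk
  have hk0 : NeZero k := ⟨by omega⟩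
  obtain ⟨γ, hγ⟩ := Field.exists_primitive_element F (FiniteField.Extension F p k)
  have hint : IsIntegral F γ := Algebra.IsIntegral.isIntegral γ
  have hirr : Irreducible (minpoly F γ) := minpoly.irreducible hint
  have hdeg : (minpoly F γ).natDegree = k := by
    rw [(Field.primitive_element_iff_minpoly_natDegree_eq F γ).mp hγ,
      FiniteField.finrank_extension]
  have htot : 1 ≤ Nat.totient d := Nat.totient_pos.mpr (by omega)
  have hkM : M < k := by
    have : M * 1 ≤ M * Nat.totient d := Nat.mul_le_mul_left _ htot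
    omega
  have hgood : Nat.Coprime d (q ^ k - 1) := by
    by_contra hnc
    obtain ⟨l, hl, hld, hlk⟩ := Nat.Prime.not_coprime_iff_dvd.mp hnc
    have hqk : 1 ≤ q ^ k := Nat.one_le_pow _ _ (by omega)
    have hlfact : Fact l.Prime := ⟨hl⟩
    have h3 : ((q ^ k - 1 : ℕ) : ZMod l) = 0 := (ZMod.natCast_eq_zero_iff _ _).mpr hlk
    rw [Nat.cast_sub hqk] at h3
    push_cast at h3
    have h4 : (q : ZMod l) ^ k = 1 := sub_eq_zero.mp h3
    have hq0 : (q : ZMod l) ≠ 0 := by
      intro h
      rw [h, zero_pow hk0.out] at h4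
      exact zero_ne_one h4
    obtain ⟨c, hc⟩ : l - 1 ∣ Nat.totient d := by
      rw [← Nat.totient_prime hl]; exact Nat.totient_dvd_of_dvd hld
    have h5 : (q : ZMod l) ^ k = q := by
      have h6 : (q : ZMod l) ^ (l - 1) = 1 := ZMod.pow_card_sub_one_eq_one hq0
      rw [hk, hc, pow_add, pow_one, show M * ((l - 1) * c) = (l - 1) * (c * M) by ring, pow_mul,
        h6, one_pow, one_mul]
    rw [h5] at h4
    have h7 : ((q - 1 : ℕ) : ZMod l) = 0 := by
      rw [Nat.cast_sub (by omega), h4]; simp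
    have h8 : l ∣ q - 1 := (ZMod.natCast_eq_zero_iff _ _).mp h7
    have h9 := Nat.dvd_gcd hld h8
    rw [hgcd] at h9
    exact hl.one_lt.ne' (Nat.dvd_one.mp h9)
  rw [← hdeg] at hgood
  obtain ⟨T, hT, h⟩ := exists_period d hd (minpoly F γ) hirr hgood α
  refine ⟨T, hT, minpoly F γ, hirr, ?_, by rw [hdeg]; exact hkM, hgood⟩
  have := h 1 0
  simpa [P] using this

/-- Let `F` be a finite field with `q` elements and characteristic `p`, and let `d ≥ 2` with
`gcd(d, q - 1) = 1`. The conclusion of Q1 (for every `M` there are `n ≥ 1` and an irreducible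
factor `g` of `P_{n,α}(λ) - β` of degree `k > M` with `gcd(d, q^k - 1) = 1`) holds in each of the
following cases.

(a) `α = β`.

(b) Some prime `e` divides the order of `q` modulo `l` for every prime `l ≠ p` dividing `d`.

(c) At most one prime `l ≠ p` divides `d` (for instance `d` is a prime power). -/
theorem result (F : Type) [Field F] [Fintype F] (p : ℕ) [Fact p.Prime] [CharP F p] (d : ℕ)
    (hd : 2 ≤ d) (hgcd : Nat.Coprime d (Fintype.card F - 1)) (α β : F) (M : ℕ)
    (h : α = β ∨
      (∃ e : ℕ, e.Prime ∧ ∀ l : ℕ, l.Prime → l ∣ d → l ≠ p →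
        e ∣ orderOf (Fintype.card F : ZMod l)) ∨
      (∃ l : ℕ, ∀ l' : ℕ, l'.Prime → l' ∣ d → l' ≠ p → l' = l)) :
    HasGoodFactor d α β M := by
  by_cases hαβ : α = β
  · subst hαβ
    exact equal_case p d hd hgcd α M
  rcases h with h | ⟨e, he, hel⟩ | ⟨l, hl⟩
  · exact absurd h hαβ
  · exact good_factor p d hd hgcd e he hel α β hαβ M
  · by_cases hlp : l.Prime ∧ l ∣ d ∧ l ≠ p
    · obtain ⟨h1, h2, h3⟩ := hlp
      have hne : orderOf (Fintype.card F : ZMod l) ≠ 1 := by
        intro ho
        rw [orderOf_eq_one_iff] at ho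
        have hq2 : 2 ≤ Fintype.card F := Fintype.one_lt_card
        have h7 : ((Fintype.card F - 1 : ℕ) : ZMod l) = 0 := by
          rw [Nat.cast_sub (by omega), ho]; simp
        have h8 : l ∣ Fintype.card F - 1 := (ZMod.natCast_eq_zero_iff _ _).mp h7
        have h9 := Nat.dvd_gcd h2 h8
        rw [hgcd] at h9
        exact h1.one_lt.ne' (Nat.dvd_one.mp h9)
      obtain ⟨e, he, heo⟩ := Nat.exists_prime_and_dvd hne
      refine good_factor p d hd hgcd e he ?_ α β hαβ M
      intro l' hl' hld' hlp'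
      rw [hl l' hl' hld' hlp']
      exact heo
    · refine good_factor p d hd hgcd 2 Nat.prime_two ?_ α β hαβ M
      intro l' hl' hld' hlp'
      exfalso
      apply hlp
      rw [← hl l' hl' hld' hlp']
      exact ⟨hl', hld', hlp'⟩

end Pool.Agent.Results.MP_705328_nt.CommonPrime
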